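import Pool.Agent.Helper91.SY.Goals

/-!
# Project SY (MP_126465_gt), packet GE: global existence of the flow of a vector field which is
constant outside a ball
-/

set_option autoImplicit false

open Set Metric Manifold
open scoped Topology ContDiff NNReal

namespace Pool.Agent.Helper89.SY

/-- Packet GE. -/
theorem ge_ : Pool.Agent.Helper91.SY.StmtGE := by
  intro E _ _ _ X R e hX hR
  have : CompleteSpace E := FiniteDimensional.complete ℝ E
  have : ProperSpace E := FiniteDimensional.proper ℝ E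
  -- bounds
  have hcb : IsCompact (closedBall (0 : E) (R + 1)) := isCompact_closedBall _ _
  obtain ⟨C1, hC1⟩ := hcb.exists_bound_of_continuousOn hX.continuous.continuousOn
  have hX' : Continuous (fderiv ℝ X) := hX.continuous_fderiv (by simp)
  obtain ⟨C2, hC2⟩ := hcb.exists_bound_of_continuousOn hX'.continuousOn
  have hb1 : ∀ x, ‖X x‖ ≤ max C1 ‖e‖ := by
    intro x
    by_cases hx : ‖x‖ ≤ R + 1
    · exact (hC1 x (by simpa [mem_closedBall_zero_iff] using hx)).trans (le_max_left _ _)
    · rw [hR x (by linarith)]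
      exact le_max_right _ _
  have hb2 : ∀ x, ‖fderiv ℝ X x‖ ≤ max C2 0 := by
    intro x
    by_cases hx : ‖x‖ ≤ R + 1
    · exact (hC2 x (by simpa [mem_closedBall_zero_iff] using hx)).trans (le_max_left _ _)
    · have hev : X =ᶠ[𝓝 x] fun _ => e := by
        have ho : IsOpen {y : E | R < ‖y‖} := isOpen_lt continuous_const continuous_norm
        filter_upwards [ho.mem_nhds (show R < ‖x‖ by linarith)] with y hy
        exact hR y (le_of_lt hy)
      rw [hev.fderiv_eq]
      simp
  set L : ℝ≥0 := ⟨max (max C1 ‖e‖) 0, le_max_right _ _⟩ with hL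
  set K : ℝ≥0 := ⟨max C2 0, le_max_right _ _⟩ with hK
  have hLip : LipschitzWith K X := by
    apply lipschitzWith_of_nnnorm_fderiv_le (hX.differentiable (by simp))
    intro x
    have := hb2 x
    exact_mod_cast this
  have hbd : ∀ x, ‖X x‖ ≤ L := fun x => (hb1 x).trans (le_max_left _ _)
  -- local existence with uniform time
  have hloc : ∀ x : E, ∃ γ : ℝ → E, γ 0 = x ∧ IsMIntegralCurveOn (I := 𝓘(ℝ, E)) γ X (Ioo (-1) 1) := by
    intro x
    have hPL : IsPicardLindelof (fun _ : ℝ => X) (tmin := -1) (tmax := 1)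
        ⟨0, by constructor <;> norm_num⟩ x L 0 L K := by
      apply IsPicardLindelof.of_time_independent
      · intro y _
        exact hbd y
      · exact hLip.lipschitzOnWith
      · simp
    obtain ⟨α, hα0, hα⟩ := hPL.exists_eq_forall_mem_Icc_hasDerivWithinAt₀
    refine ⟨α, hα0, ?_⟩
    intro t ht
    have h1 := (hα t ⟨ht.1.le, ht.2.le⟩).hasDerivAt (Icc_mem_nhds ht.1 ht.2)
    exact (h1.hasFDerivAt.hasFDerivWithinAt).hasMFDerivWithinAt
  have hv : ContMDiff 𝓘(ℝ, E) 𝓘(ℝ, E).tangent 1 (fun x : E => (⟨x, X x⟩ : TangentBundle 𝓘(ℝ, E) E)) := by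
    apply contMDiff_vectorSpace_iff_contDiff.2
    exact hX.of_le (by simp)
  have hglob := exists_isMIntegralCurve_of_isMIntegralCurveOn (I := 𝓘(ℝ, E)) (v := X) hv one_pos hloc
  choose Ψ hΨ0 hΨ using hglob
  refine ⟨fun t x => Ψ x t, hΨ0, ?_⟩
  intro t x
  have h : HasFDerivAt (Ψ x) ((1 : ℝ →L[ℝ] ℝ).smulRight (X (Ψ x t))) t := (hΨ x t).hasFDerivAt
  have h2 := h.hasDerivAt
  simpa using h2

end Pool.Agent.Helper89.SY
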